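import Pool.Agent.Helper5.NE.Stmts
import Pool.Agent.Helper15.Pair.All

/-!
# Packet P1 (MP_d99be0_an): words in an expanding pair contract trace zero, sum zero matrices
-/

set_option autoImplicit false

open Equiv

namespace Pool.Agent.Helper96.NE

open Pool.Agent.Helper5.NE

/-- squared Hilbert Schmidt norm -/
noncomputable def nsq {k : ℕ} (v : Fin k → Fin k → ℂ) : ℝ := ∑ i, ∑ j, ‖v i j‖ ^ 2

/-- the sum over the letters -/
def TT {k : ℕ} (a : Fin 4 → Perm (Fin k)) (v : Fin k → Fin k → ℂ) : Fin k → Fin k → ℂ :=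
  fun i j => ∑ l, v (a l i) (a l j)

theorem TT_trace {k : ℕ} (a : Fin 4 → Perm (Fin k)) (v : Fin k → Fin k → ℂ)
    (h : ∑ i, v i i = 0) : ∑ i, TT a v i i = 0 := by
  unfold TT
  rw [Finset.sum_comm]
  refine Finset.sum_eq_zero fun l _ => ?_
  rw [Equiv.sum_comp (a l) (fun i => v i i), h]

theorem TT_sum {k : ℕ} (a : Fin 4 → Perm (Fin k)) (v : Fin k → Fin k → ℂ)
    (h : ∑ i, ∑ j, v i j = 0) : ∑ i, ∑ j, TT a v i j = 0 := by
  unfold TT
  have h1 : ∀ i, ∑ j, ∑ l, v (a l i) (a l j) = ∑ l, ∑ j, v (a l i) (a l j) := fun i =>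
    Finset.sum_comm
  simp only [h1]
  rw [Finset.sum_comm]
  refine Finset.sum_eq_zero fun l _ => ?_
  have h2 : ∀ i, ∑ j, v (a l i) (a l j) = ∑ j, v (a l i) j := fun i =>
    Equiv.sum_comp (a l) (fun j => v (a l i) j)
  simp only [h2]
  rw [Equiv.sum_comp (a l) (fun i => ∑ j, v i j), h]

theorem words {k : ℕ} (a : Fin 4 → Perm (Fin k)) (n : ℕ) :
    ∃ w : Fin (4 ^ n) → Perm (Fin k), ∀ v : Fin k → Fin k → ℂ, ∀ i j,
      ((TT a)^[n] v) i j = ∑ l, v (w l i) (w l j) := by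
  induction n with
  | zero => exact ⟨fun _ => 1, fun v i j => by simp⟩
  | succ n ih =>
    obtain ⟨w, hw⟩ := ih
    refine ⟨fun l => w (finProdFinEquiv.symm (Fin.cast (pow_succ 4 n) l)).1 *
      a (finProdFinEquiv.symm (Fin.cast (pow_succ 4 n) l)).2, fun v i j => ?_⟩
    rw [Function.iterate_succ', Function.comp_apply]
    show ∑ l, ((TT a)^[n] v) (a l i) (a l j) = _
    simp only [hw]
    have h1 : ∀ f : Fin (4 ^ n) × Fin 4 → ℂ,
        ∑ l : Fin (4 ^ (n + 1)), f (finProdFinEquiv.symm (Fin.cast (pow_succ 4 n) l)) =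
          ∑ l', ∑ l, f (l, l') := by
      intro f
      have h2 := Equiv.sum_comp ((finCongr (pow_succ 4 n)).trans finProdFinEquiv.symm) f
      rw [Finset.sum_comm, ← Fintype.sum_prod_type, ← h2]
      rfl
    exact (h1 (fun p => v (w p.1 (a p.2 i)) (w p.1 (a p.2 j)))).symm

/-- two transitivity of the alternating group -/
theorem two_trans {k : ℕ} (hk : 5 ≤ k) {i j i' j' : Fin k} (h : i ≠ j) (h' : i' ≠ j') :
    ∃ g : alternatingGroup (Fin k), (g : Perm (Fin k)) i = i' ∧ (g : Perm (Fin k)) j = j' := by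
  have h1 := alternatingGroup.isMultiplyPretransitive (Fin k)
  have h2 : MulAction.IsMultiplyPretransitive (alternatingGroup (Fin k)) (Fin k) 2 := by
    refine MulAction.isMultiplyPretransitive_of_le (n := Nat.card (Fin k) - 2) ?_ (Nat.sub_le _ _)
    rw [Nat.card_fin]; omega
  rw [MulAction.is_two_pretransitive_iff] at h2
  obtain ⟨g, hg1, hg2⟩ := h2 h h'
  exact ⟨g, hg1, hg2⟩

/-- the permutation representation on matrices -/
noncomputable def rho (k : ℕ) :
    Representation ℂ (alternatingGroup (Fin k)) (EuclideanSpace ℂ (Fin k × Fin k)) where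
  toFun g := (LinearIsometryEquiv.piLpCongrLeft 2 ℂ ℂ
    (Equiv.prodCongr (g : Perm (Fin k)) (g : Perm (Fin k)))).toLinearEquiv.toLinearMap
  map_one' := by
    ext v p
    rfl
  map_mul' g h := by
    ext v p
    rfl

theorem rho_apply {k : ℕ} (g : alternatingGroup (Fin k)) (v : EuclideanSpace ℂ (Fin k × Fin k))
    (p : Fin k × Fin k) : rho k g v p = v ((g : Perm (Fin k)).symm p.1, (g : Perm (Fin k)).symm p.2) :=
  rfl

theorem rho_norm {k : ℕ} (g : alternatingGroup (Fin k)) (v : EuclideanSpace ℂ (Fin k × Fin k)) :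
    ‖rho k g v‖ = ‖v‖ :=
  (LinearIsometryEquiv.piLpCongrLeft 2 ℂ ℂ
    (Equiv.prodCongr (g : Perm (Fin k)) (g : Perm (Fin k)))).norm_map v

/-- matrices as vectors -/
noncomputable def vec {k : ℕ} (v : Fin k → Fin k → ℂ) : EuclideanSpace ℂ (Fin k × Fin k) :=
  WithLp.toLp 2 (fun p => v p.1 p.2)

theorem vec_apply {k : ℕ} (v : Fin k → Fin k → ℂ) (p : Fin k × Fin k) : vec v p = v p.1 p.2 := rfl

theorem vec_norm {k : ℕ} (v : Fin k → Fin k → ℂ) : ‖vec v‖ ^ 2 = nsq v := by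
  rw [EuclideanSpace.norm_sq_eq, nsq, Fintype.sum_prod_type]
  rfl

theorem sum_rho {k : ℕ} (hk : 5 ≤ k) (v : Fin k → Fin k → ℂ) (h1 : ∑ i, v i i = 0)
    (h2 : ∑ i, ∑ j, v i j = 0) : ∑ g : alternatingGroup (Fin k), rho k g (vec v) = 0 := by
  classical
  set M : Fin k → Fin k → ℂ := fun i j => ∑ g : alternatingGroup (Fin k),
    v ((g : Perm (Fin k)).symm i) ((g : Perm (Fin k)).symm j) with hM
  have hinv : ∀ (h : alternatingGroup (Fin k)) i j,
      M ((h : Perm (Fin k)) i) ((h : Perm (Fin k)) j) = M i j := by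
    intro h i j
    simp only [hM]
    rw [← Equiv.sum_comp (Equiv.mulLeft h)]
    refine Finset.sum_congr rfl fun g _ => ?_
    have e : ∀ t, ((Equiv.mulLeft h g : alternatingGroup (Fin k)) : Perm (Fin k)).symm
        ((h : Perm (Fin k)) t) = (g : Perm (Fin k)).symm t := by
      intro t
      rw [Equiv.symm_apply_eq]
      show _ = (h : Perm (Fin k)) ((g : Perm (Fin k)) _)
      rw [Equiv.apply_symm_apply]
    rw [e, e]
  have htr : ∑ i, M i i = 0 := by
    simp only [hM]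
    rw [Finset.sum_comm]
    refine Finset.sum_eq_zero fun g _ => ?_
    rw [Equiv.sum_comp (g : Perm (Fin k)).symm (fun i => v i i), h1]
  have hsum : ∑ i, ∑ j, M i j = 0 := by
    have e1 : ∀ i, ∑ j, M i j = ∑ g : alternatingGroup (Fin k), ∑ j,
        v ((g : Perm (Fin k)).symm i) j := by
      intro i
      simp only [hM]
      rw [Finset.sum_comm]
      refine Finset.sum_congr rfl fun g _ => ?_
      exact Equiv.sum_comp (g : Perm (Fin k)).symm (fun j => v ((g : Perm (Fin k)).symm i) j)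
    simp only [e1]
    rw [Finset.sum_comm]
    refine Finset.sum_eq_zero fun g _ => ?_
    rw [Equiv.sum_comp (g : Perm (Fin k)).symm (fun i => ∑ j, v i j), h2]
  have i0 : Fin k := ⟨0, by omega⟩
  have hdiag : ∀ i, M i i = 0 := by
    have hc : ∀ i j, M i i = M j j := by
      intro i j
      obtain ⟨i', hi'⟩ : ∃ i', i' ≠ i := ⟨if i = ⟨0, by omega⟩ then ⟨1, by omega⟩ else ⟨0, by omega⟩, by
        split_ifs with h
        · rw [h]; simp
        · exact fun h' => h h'.symm⟩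
      obtain ⟨j', hj'⟩ : ∃ j', j' ≠ j := ⟨if j = ⟨0, by omega⟩ then ⟨1, by omega⟩ else ⟨0, by omega⟩, by
        split_ifs with h
        · rw [h]; simp
        · exact fun h' => h h'.symm⟩
      obtain ⟨g, hg, -⟩ := two_trans hk hi'.symm hj'.symm
      rw [← hinv g i i, hg]
    intro i
    have : ∑ j, M j j = k * M i i := by
      rw [Finset.sum_congr rfl (fun j _ => hc j i)]
      simp
    rw [htr] at this
    have hk0 : (k : ℂ) ≠ 0 := by exact_mod_cast (by omega : k ≠ 0)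
    exact (mul_eq_zero.1 this.symm).resolve_left hk0
  have hoff : ∀ i j, i ≠ j → M i j = 0 := by
    intro i j hij
    have hc : ∀ i' j', i' ≠ j' → M i' j' = M i j := by
      intro i' j' h'
      obtain ⟨g, hg1, hg2⟩ := two_trans hk hij h'
      rw [← hinv g i j, hg1, hg2]
    have e2 : ∀ i', ∑ j', M i' j' = ((k : ℂ) - 1) * M i j := by
      intro i'
      rw [← Finset.add_sum_erase _ _ (Finset.mem_univ i'), hdiag, zero_add,
        Finset.sum_congr rfl (fun j' hj' => hc i' j' (Finset.ne_of_mem_erase hj').symm)]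
      rw [Finset.sum_const, Finset.card_erase_of_mem (Finset.mem_univ _), Finset.card_univ,
        Fintype.card_fin, nsmul_eq_mul, Nat.cast_sub (by omega), Nat.cast_one]
    rw [Finset.sum_congr rfl (fun i' _ => e2 i')] at hsum
    rw [Finset.sum_const, Finset.card_univ, Fintype.card_fin, nsmul_eq_mul, ← mul_assoc] at hsum
    have hk0 : (k : ℂ) * (k - 1) ≠ 0 := by
      have h5 : (k : ℂ) ≠ 0 := by exact_mod_cast (by omega : k ≠ 0)
      have h6 : (k : ℂ) - 1 ≠ 0 := by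
        rw [sub_ne_zero]; exact_mod_cast (by omega : k ≠ 1)
      exact mul_ne_zero h5 h6
    exact (mul_eq_zero.1 hsum).resolve_left hk0
  ext p
  have e3 : (∑ g : alternatingGroup (Fin k), rho k g (vec v)) p = M p.1 p.2 := by
    rw [hM]
    simp only [WithLp.ofLp_sum, Finset.sum_apply, rho_apply, vec_apply]
  rw [e3]
  by_cases hp : p.1 = p.2
  · rw [hp, hdiag]; rfl
  · rw [hoff _ _ hp]; rfl

/-- the contraction factor -/
noncomputable def gam (C : ℝ) : ℝ := (1 + √(1 - 1 / (16 * C ^ 2))) / 2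

theorem gam_lt {C : ℝ} (hC : 0 < C) : gam C < 1 := by
  unfold gam
  have : √(1 - 1 / (16 * C ^ 2)) < 1 := by
    rw [Real.sqrt_lt' one_pos]
    have : 0 < 1 / (16 * C ^ 2) := by positivity
    linarith
  linarith

theorem gam_nonneg (C : ℝ) : 0 ≤ gam C := by unfold gam; positivity

theorem onestep {k : ℕ} (hk : 5 ≤ k) {C : ℝ} (hC : 0 < C) (x y : alternatingGroup (Fin k))
    (hxy : ∀ (V : Type) [NormedAddCommGroup V] [InnerProductSpace ℂ V]
      [FiniteDimensional ℂ V] (ρ : Representation ℂ (alternatingGroup (Fin k)) V),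
      (∀ g v, ‖ρ g v‖ = ‖v‖) → ∀ (v : V) (g : alternatingGroup (Fin k)),
      ‖ρ g v - v‖ ≤ C * (‖ρ x v - v‖ + ‖ρ y v - v‖))
    (v : Fin k → Fin k → ℂ) (h1 : ∑ i, v i i = 0) (h2 : ∑ i, ∑ j, v i j = 0) :
    nsq (TT ![1, (x : Perm (Fin k)).symm, 1, (y : Perm (Fin k)).symm] v) ≤
      (4 * gam C) ^ 2 * nsq v := by
  set u := vec v with hu
  set a := ‖rho k x u - u‖ with ha
  set b := ‖rho k y u - u‖ with hb
  set N := ‖u‖ with hN
  have hN0 : 0 ≤ N := norm_nonneg _
  have ha0 : 0 ≤ a := norm_nonneg _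
  have hb0 : 0 ≤ b := norm_nonneg _
  have key : N ≤ C * (a + b) := by
    have e1 : (Fintype.card (alternatingGroup (Fin k)) : ℂ) • u =
        - ∑ g : alternatingGroup (Fin k), (rho k g u - u) := by
      rw [Finset.sum_sub_distrib, sum_rho hk v h1 h2, zero_sub, neg_neg, Finset.sum_const,
        Finset.card_univ, Nat.cast_smul_eq_nsmul]
    have e2 := congrArg norm e1
    rw [norm_neg, norm_smul, Complex.norm_natCast] at e2
    have e3 : ‖∑ g : alternatingGroup (Fin k), (rho k g u - u)‖ ≤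
        Fintype.card (alternatingGroup (Fin k)) * (C * (a + b)) := by
      refine (norm_sum_le _ _).trans ?_
      calc ∑ g : alternatingGroup (Fin k), ‖rho k g u - u‖
          ≤ ∑ g : alternatingGroup (Fin k), C * (a + b) :=
            Finset.sum_le_sum fun g _ => hxy _ (rho k) rho_norm u g
        _ = _ := by rw [Finset.sum_const, Finset.card_univ, nsmul_eq_mul]
    have e4 : (0 : ℝ) < Fintype.card (alternatingGroup (Fin k)) := by
      exact_mod_cast Fintype.card_pos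
    rw [← e2] at e3
    exact le_of_mul_le_mul_left e3 e4
  have hpar : ∀ w : EuclideanSpace ℂ (Fin k × Fin k), ‖w‖ = N →
      ‖u + w‖ = √(4 * N ^ 2 - ‖w - u‖ ^ 2) := by
    intro w hw
    have e1 := parallelogram_law_with_norm ℂ u w
    rw [hw, ← hN, norm_sub_rev] at e1
    rw [show 4 * N ^ 2 - ‖w - u‖ ^ 2 = ‖u + w‖ ^ 2 by nlinarith, Real.sqrt_sq (norm_nonneg _)]
  have hx := hpar _ (rho_norm x u)
  have hy := hpar _ (rho_norm y u)
  have hT : vec (TT ![1, (x : Perm (Fin k)).symm, 1, (y : Perm (Fin k)).symm] v) =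
      (u + rho k x u) + (u + rho k y u) := by
    ext p
    rw [vec_apply, TT, Fin.sum_univ_four]
    show v p.1 p.2 + v ((x : Perm (Fin k)).symm p.1) ((x : Perm (Fin k)).symm p.2) + v p.1 p.2 +
      v ((y : Perm (Fin k)).symm p.1) ((y : Perm (Fin k)).symm p.2) = (v p.1 p.2 + _) + (v p.1 p.2 + _)
    rw [← add_assoc]
    rfl
  have hone : ∀ c : ℝ, 0 ≤ c → √(4 * N ^ 2 - c ^ 2) ≤ 2 * N := by
    intro c hc
    rw [Real.sqrt_le_left (by positivity)]
    nlinarith
  have htwo : ∀ c : ℝ, 0 ≤ c → N ≤ 2 * C * c →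
      √(4 * N ^ 2 - c ^ 2) ≤ 2 * N * √(1 - 1 / (16 * C ^ 2)) := by
    intro c hc hNc
    rw [← Real.sqrt_sq (by positivity : 0 ≤ 2 * N), ← Real.sqrt_mul (by positivity)]
    apply Real.sqrt_le_sqrt
    have : (2 * N) ^ 2 * (1 / (16 * C ^ 2)) ≤ c ^ 2 := by
      have e1 : N ^ 2 ≤ (2 * C * c) ^ 2 := by gcongr
      have e2 : (2 * N) ^ 2 * (1 / (16 * C ^ 2)) = N ^ 2 / (4 * C ^ 2) := by
        field_simp; ring
      rw [e2, div_le_iff₀ (by positivity)]
      nlinarith
    nlinarith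
  have hmain : ‖vec (TT ![1, (x : Perm (Fin k)).symm, 1, (y : Perm (Fin k)).symm] v)‖ ≤
      4 * gam C * N := by
    rw [hT]
    refine (norm_add_le _ _).trans ?_
    rw [hx, hy, ← ha, ← hb]
    unfold gam
    rcases le_total a b with hab | hab
    · have e1 := hone a ha0
      have e2 := htwo b hb0 (by nlinarith)
      linarith
    · have e1 := hone b hb0
      have e2 := htwo a ha0 (by nlinarith)
      linarith
  rw [← vec_norm, ← vec_norm, ← mul_pow]
  exact pow_le_pow_left₀ (norm_nonneg _) hmain 2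

theorem iter {k : ℕ} (hk : 5 ≤ k) {C : ℝ} (hC : 0 < C) (x y : alternatingGroup (Fin k))
    (hxy : ∀ (V : Type) [NormedAddCommGroup V] [InnerProductSpace ℂ V]
      [FiniteDimensional ℂ V] (ρ : Representation ℂ (alternatingGroup (Fin k)) V),
      (∀ g v, ‖ρ g v‖ = ‖v‖) → ∀ (v : V) (g : alternatingGroup (Fin k)),
      ‖ρ g v - v‖ ≤ C * (‖ρ x v - v‖ + ‖ρ y v - v‖))
    (v : Fin k → Fin k → ℂ) (h1 : ∑ i, v i i = 0) (h2 : ∑ i, ∑ j, v i j = 0) (n : ℕ) :
    (∑ i, ((TT ![1, (x : Perm (Fin k)).symm, 1, (y : Perm (Fin k)).symm])^[n] v) i i = 0) ∧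
    (∑ i, ∑ j, ((TT ![1, (x : Perm (Fin k)).symm, 1, (y : Perm (Fin k)).symm])^[n] v) i j = 0) ∧
    nsq ((TT ![1, (x : Perm (Fin k)).symm, 1, (y : Perm (Fin k)).symm])^[n] v) ≤
      ((4 * gam C) ^ n) ^ 2 * nsq v := by
  induction n with
  | zero => exact ⟨by simpa using h1, by simpa using h2, by simp⟩
  | succ n ih =>
    obtain ⟨i1, i2, i3⟩ := ih
    rw [Function.iterate_succ', Function.comp_apply]
    refine ⟨TT_trace _ _ i1, TT_sum _ _ i2, ?_⟩
    refine (onestep hk hC x y hxy _ i1 i2).trans ?_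
    calc (4 * gam C) ^ 2 * nsq ((TT ![1, (x : Perm (Fin k)).symm, 1,
          (y : Perm (Fin k)).symm])^[n] v)
        ≤ (4 * gam C) ^ 2 * (((4 * gam C) ^ n) ^ 2 * nsq v) := by gcongr
      _ = ((4 * gam C) ^ (n + 1)) ^ 2 * nsq v := by ring

theorem gap_of (h : ∃ C : ℝ, 0 < C ∧ ∀ k, 5 ≤ k → ∃ x y : alternatingGroup (Fin k),
    ∀ (V : Type) [NormedAddCommGroup V] [InnerProductSpace ℂ V]
      [FiniteDimensional ℂ V] (ρ : Representation ℂ (alternatingGroup (Fin k)) V),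
      (∀ g v, ‖ρ g v‖ = ‖v‖) → ∀ (v : V) (g : alternatingGroup (Fin k)),
      ‖ρ g v - v‖ ≤ C * (‖ρ x v - v‖ + ‖ρ y v - v‖)) : GapStmt := by
  intro η hη
  obtain ⟨C, hC, h⟩ := h
  obtain ⟨n, hn⟩ := exists_pow_lt_of_lt_one hη (gam_lt hC)
  have hk : ∀ k : ℕ, ∃ w : Fin (4 ^ n) → Perm (Fin k),
      5 ≤ k → ∀ v : Fin k → Fin k → ℂ, ∑ i, v i i = 0 → ∑ i, ∑ j, v i j = 0 →
    ∑ i, ∑ j, ‖∑ l, v (w l i) (w l j)‖ ^ 2 ≤ (η * (4 ^ n : ℕ)) ^ 2 * ∑ i, ∑ j, ‖v i j‖ ^ 2 := by
    intro k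
    by_cases hk : 5 ≤ k
    · obtain ⟨x, y, hxy⟩ := h k hk
      obtain ⟨w, hw⟩ := words ![1, (x : Perm (Fin k)).symm, 1, (y : Perm (Fin k)).symm] n
      refine ⟨w, fun _ v h1 h2 => ?_⟩
      have h3 := (iter hk hC x y hxy v h1 h2 n).2.2
      simp only [nsq, hw] at h3
      refine h3.trans ?_
      have h4 : (4 * gam C) ^ n ≤ η * (4 ^ n : ℕ) := by
        push_cast
        rw [mul_pow, mul_comm]
        exact mul_le_mul_of_nonneg_right hn.le (by positivity)
      have h5 : 0 ≤ gam C := gam_nonneg C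
      gcongr
    · exact ⟨fun _ => 1, fun h => absurd h hk⟩
  choose w hw using hk
  exact ⟨4 ^ n, by positivity, w, hw⟩

theorem gap : GapStmt := by
  obtain ⟨C, hC, h⟩ := Pool.Agent.Helper15.Pair.kaz_all
  exact gap_of ⟨C, hC, fun k hk => h k hk⟩

end Pool.Agent.Helper96.NE
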